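import Mathlib
import Pool.Agent.Helper13.Om.Bonf
import Pool.Agent.Helper13.Om.Cheb
import Pool.Agent.Helper13.Om.Sieve
import Pool.Agent.Helper6.ER.Defs

set_option autoImplicit false

/-! The abstract Brun-Hooley lower bound sieve. -/

namespace Pool.Agent.Helper6.ER.SL

open Finset Helper13.Om

/-- functionals with coefficients bounded by `c` and level `N` -/
def Lev (Q : Finset ℕ) (c : ℝ) (N : ℕ) (F : (ℕ → ℝ) → ℝ) : Prop :=
  ∃ l : Finset ℕ → ℝ, (∀ s, |l s| ≤ c) ∧ (∀ s, s ⊆ Q → l s ≠ 0 → ∏ q ∈ s, q ≤ N) ∧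
    ∀ g, F g = ∑ s ∈ Q.powerset, l s * ∏ q ∈ s, g q

theorem Lev.mul {Q₁ Q₂ : Finset ℕ} (hd : Disjoint Q₁ Q₂) {N₁ N₂ : ℕ} {F₁ F₂ : (ℕ → ℝ) → ℝ}
    (h₁ : Lev Q₁ 1 N₁ F₁) (h₂ : Lev Q₂ 1 N₂ F₂) :
    Lev (Q₁ ∪ Q₂) 1 (N₁ * N₂) (fun g => F₁ g * F₂ g) := by
  classical
  obtain ⟨l₁, a₁, b₁, c₁⟩ := h₁
  obtain ⟨l₂, a₂, b₂, c₂⟩ := h₂
  have hsplit : ∀ s ⊆ Q₁ ∪ Q₂, (s ∩ Q₁) ∪ (s ∩ Q₂) = s := by
    intro s hs
    rw [← inter_union_distrib_left, inter_eq_left.2 hs]
  have hdis : ∀ s : Finset ℕ, Disjoint (s ∩ Q₁) (s ∩ Q₂) := fun s =>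
    disjoint_of_subset_left inter_subset_right (disjoint_of_subset_right inter_subset_right hd)
  refine ⟨fun s => l₁ (s ∩ Q₁) * l₂ (s ∩ Q₂), ?_, ?_, ?_⟩
  · intro s
    rw [abs_mul]
    exact mul_le_one₀ (a₁ _) (abs_nonneg _) (a₂ _)
  · intro s hs hne
    have h1 := b₁ _ inter_subset_right (left_ne_zero_of_mul hne)
    have h2 := b₂ _ inter_subset_right (right_ne_zero_of_mul hne)
    calc ∏ q ∈ s, q = ∏ q ∈ (s ∩ Q₁) ∪ (s ∩ Q₂), q := by rw [hsplit s hs]
      _ = (∏ q ∈ s ∩ Q₁, q) * ∏ q ∈ s ∩ Q₂, q := prod_union (hdis s)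
      _ ≤ N₁ * N₂ := Nat.mul_le_mul h1 h2
  · intro g
    beta_reduce
    rw [c₁ g, c₂ g, sum_mul_sum, ← sum_product']
    refine sum_nbij' (fun p => p.1 ∪ p.2) (fun s => (s ∩ Q₁, s ∩ Q₂)) ?_ ?_ ?_ ?_ ?_
    · intro p hp
      rw [mem_product, mem_powerset, mem_powerset] at hp
      rw [mem_powerset]
      exact union_subset_union hp.1 hp.2
    · intro s _
      rw [mem_product, mem_powerset, mem_powerset]
      exact ⟨inter_subset_right, inter_subset_right⟩
    · intro p hp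
      rw [mem_product, mem_powerset, mem_powerset] at hp
      obtain ⟨h1, h2⟩ := hp
      have e1 : (p.1 ∪ p.2) ∩ Q₁ = p.1 := by
        rw [union_inter_distrib_right, inter_eq_left.2 h1,
          disjoint_iff_inter_eq_empty.1 (disjoint_of_subset_left h2 hd.symm), union_empty]
      have e2 : (p.1 ∪ p.2) ∩ Q₂ = p.2 := by
        rw [union_inter_distrib_right, inter_eq_left.2 h2,
          disjoint_iff_inter_eq_empty.1 (disjoint_of_subset_left h1 hd), empty_union]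
      exact Prod.ext e1 e2
    · intro s hs
      exact hsplit s (mem_powerset.1 hs)
    · intro p hp
      rw [mem_product, mem_powerset, mem_powerset] at hp
      obtain ⟨h1, h2⟩ := hp
      have e1 : (p.1 ∪ p.2) ∩ Q₁ = p.1 := by
        rw [union_inter_distrib_right, inter_eq_left.2 h1,
          disjoint_iff_inter_eq_empty.1 (disjoint_of_subset_left h2 hd.symm), union_empty]
      have e2 : (p.1 ∪ p.2) ∩ Q₂ = p.2 := by
        rw [union_inter_distrib_right, inter_eq_left.2 h2,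
          disjoint_iff_inter_eq_empty.1 (disjoint_of_subset_left h1 hd), empty_union]
      have h3 : Disjoint p.1 p.2 :=
        disjoint_of_subset_left h1 (disjoint_of_subset_right h2 hd)
      rw [e1, e2, prod_union h3]
      ring

theorem Lev.prod (B : ℕ → Finset ℕ) (hB : ∀ i j, i ≠ j → Disjoint (B i) (B j)) (N : ℕ → ℕ)
    (F : ℕ → (ℕ → ℝ) → ℝ) (h : ∀ i, Lev (B i) 1 (N i) (F i)) (J : ℕ) :
    Lev ((range J).biUnion B) 1 (∏ i ∈ range J, N i) (fun g => ∏ i ∈ range J, F i g) := by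
  classical
  induction J with
  | zero =>
    refine ⟨fun _ => 1, by simp, ?_, by simp⟩
    intro s hs _
    have : s = ∅ := by simpa using hs
    simp [this]
  | succ J ih =>
    have hd : Disjoint (B J) ((range J).biUnion B) := by
      rw [disjoint_biUnion_right]
      intro i hi
      exact hB _ _ (by rw [mem_range] at hi; omega)
    have h1 := Lev.mul hd (h J) ih
    rw [range_add_one, biUnion_insert]
    simp only [prod_insert notMem_range_self]
    exact h1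

theorem Lev.atr (P : Finset ℕ) (r m n : ℕ) (hr : r ≤ n) (hP : ∀ q ∈ P, q ≤ 2 ^ m) :
    Lev P 1 (2 ^ (m * n)) (Atr r P) := by
  classical
  refine ⟨fun T => if T.card ≤ r then (-1 : ℝ) ^ T.card else 0, ?_, ?_, ?_⟩
  · intro T
    beta_reduce
    split_ifs <;> simp
  · intro T hT hne
    have hc : T.card ≤ r := by
      by_contra hcon
      exact hne (if_neg hcon)
    calc ∏ q ∈ T, q ≤ ∏ _q ∈ T, 2 ^ m := prod_le_prod' fun q hq => hP q (hT hq)
      _ = 2 ^ (m * T.card) := by rw [prod_const, pow_mul]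
      _ ≤ 2 ^ (m * n) := Nat.pow_le_pow_right (by norm_num) (Nat.mul_le_mul_left _ (hc.trans hr))
  · intro g
    unfold Atr
    refine sum_congr rfl fun T _ => ?_
    beta_reduce
    split_ifs
    · rfl
    · simp

theorem Lev.top (P : Finset ℕ) (r m : ℕ) (hP : ∀ q ∈ P, q ≤ 2 ^ m) :
    Lev P 1 (2 ^ (m * (r + 1))) (fun g => Atr r P g - Atr (r + 1) P g) := by
  classical
  refine ⟨fun T => (if T.card ≤ r then (-1 : ℝ) ^ T.card else 0) -
    (if T.card ≤ r + 1 then (-1 : ℝ) ^ T.card else 0), ?_, ?_, ?_⟩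
  · intro T
    beta_reduce
    by_cases h1 : T.card ≤ r
    · rw [if_pos h1, if_pos (by omega)]; simp
    · by_cases h2 : T.card ≤ r + 1
      · rw [if_neg h1, if_pos h2]; simp
      · rw [if_neg h1, if_neg h2]; simp
  · intro T hT hne
    have hc : T.card ≤ r + 1 := by
      by_contra hcon
      apply hne
      beta_reduce
      rw [if_neg (by omega), if_neg hcon, sub_zero]
    calc ∏ q ∈ T, q ≤ ∏ _q ∈ T, 2 ^ m := prod_le_prod' fun q hq => hP q (hT hq)
      _ = 2 ^ (m * T.card) := by rw [prod_const, pow_mul]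
      _ ≤ 2 ^ (m * (r + 1)) := Nat.pow_le_pow_right (by norm_num) (Nat.mul_le_mul_left _ hc)
  · intro g
    unfold Atr
    beta_reduce
    rw [← sum_sub_distrib]
    refine sum_congr rfl fun T _ => ?_
    rw [sub_mul]
    congr 1
    · split_ifs
      · rfl
      · simp
    · split_ifs
      · rfl
      · simp

theorem Lev.mono {Q : Finset ℕ} {c : ℝ} {N N' : ℕ} (h : N ≤ N') {F : (ℕ → ℝ) → ℝ}
    (hF : Lev Q c N F) : Lev Q c N' F := by
  obtain ⟨l, h1, h2, h3⟩ := hF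
  exact ⟨l, h1, fun s hs hne => (h2 s hs hne).trans h, h3⟩

theorem Lev.sub {Q : Finset ℕ} {c d : ℝ} {N : ℕ} {F G : (ℕ → ℝ) → ℝ}
    (hF : Lev Q c N F) (hG : Lev Q d N G) : Lev Q (c + d) N (fun g => F g - G g) := by
  obtain ⟨l, h1, h2, h3⟩ := hF
  obtain ⟨l', h1', h2', h3'⟩ := hG
  refine ⟨fun s => l s - l' s, fun s => (abs_sub _ _).trans (add_le_add (h1 s) (h1' s)), ?_, ?_⟩
  · intro s hs hne
    by_cases h : l s = 0
    · refine h2' s hs fun h' => hne ?_
      beta_reduce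
      rw [h, h', sub_zero]
    · exact h2 s hs h
  · intro g
    beta_reduce
    rw [h3, h3', ← sum_sub_distrib]
    exact sum_congr rfl fun s _ => (sub_mul _ _ _).symm

theorem Lev.sum {Q : Finset ℕ} {N : ℕ} (F : ℕ → (ℕ → ℝ) → ℝ) (J : ℕ)
    (hF : ∀ j, Lev Q 1 N (F j)) : Lev Q J N (fun g => ∑ j ∈ range J, F j g) := by
  choose l h1 h2 h3 using hF
  refine ⟨fun s => ∑ j ∈ range J, l j s, ?_, ?_, ?_⟩
  · intro s
    refine (abs_sum_le_sum_abs _ _).trans ((sum_le_sum fun j _ => h1 j s).trans ?_)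
    simp
  · intro s hs hne
    obtain ⟨j, _, hj⟩ := exists_ne_zero_of_sum_ne_zero hne
    exact h2 j s hs hj
  · intro g
    simp only [h3, sum_mul]
    rw [sum_comm]

/-- telescoping -/
theorem tele (s : Finset ℕ) (I U : ℕ → ℝ) (h0 : ∀ j ∈ s, 0 ≤ I j) (h1 : ∀ j ∈ s, I j ≤ U j) :
    ∏ j ∈ s, U j - ∑ j ∈ s, ∏ i ∈ s, (if i = j then U j - I j else U i) ≤ ∏ j ∈ s, I j := by
  classical
  induction s using Finset.induction_on with
  | empty => simp
  | insert a s ha ih =>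
    have ih' := ih (fun j hj => h0 j (mem_insert_of_mem hj)) (fun j hj => h1 j (mem_insert_of_mem hj))
    have ha0 := h0 a (mem_insert_self _ _)
    have ha1 := h1 a (mem_insert_self _ _)
    rw [prod_insert ha, prod_insert ha, sum_insert ha, prod_insert ha, if_pos rfl]
    have e1 : ∏ i ∈ s, (if i = a then U a - I a else U i) = ∏ i ∈ s, U i := by
      refine prod_congr rfl fun i hi => ?_
      rw [if_neg]
      rintro rfl
      exact ha hi
    have e2 : ∑ j ∈ s, ∏ i ∈ insert a s, (if i = j then U j - I j else U i) =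
        U a * ∑ j ∈ s, ∏ i ∈ s, (if i = j then U j - I j else U i) := by
      rw [mul_sum]
      refine sum_congr rfl fun j hj => ?_
      rw [prod_insert ha, if_neg]
      rintro rfl
      exact ha hj
    rw [e1, e2]
    have hS : 0 ≤ ∑ j ∈ s, ∏ i ∈ s, (if i = j then U j - I j else U i) := by
      refine sum_nonneg fun j hj => prod_nonneg fun i hi => ?_
      have hi0 := h0 i (mem_insert_of_mem hi)
      have hi1 := h1 i (mem_insert_of_mem hi)
      have hj1 := h1 j (mem_insert_of_mem hj)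
      split_ifs
      · linarith
      · linarith
    nlinarith [mul_le_mul_of_nonneg_left ih' ha0, mul_nonneg (sub_nonneg.2 ha1) hS]

/-- the truncation error of a block -/
theorem top_le (P : Finset ℕ) (g : ℕ → ℝ) (h0 : ∀ q ∈ P, 0 ≤ g q) (h1 : ∀ q ∈ P, g q ≤ 1)
    (hG : ∑ q ∈ P, g q ≤ 4) (c : ℕ) (hc : 1 ≤ c) :
    Atr (2 * c) P g - Atr (2 * c + 1) P g ≤
      2 * (4 ^ (2 * c + 1) / ((2 * c + 1).factorial : ℝ)) := by
  have hG0 : 0 ≤ ∑ q ∈ P, g q := sum_nonneg h0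
  have e1 := Atr_even_le P g h0 h1 c
  have e2 := (Atr_bonf P g h0 h1 (2 * c + 1)).2
  rw [pow_succ (-1 : ℝ), pow_mul, neg_one_sq, one_pow, one_mul] at e2
  have hn4 : (4 : ℝ) ≤ ((2 * c + 1 : ℕ) : ℝ) + 1 := by
    have : 4 ≤ 2 * c + 1 + 1 := by omega
    exact_mod_cast this
  generalize 2 * c + 1 = n at e1 e2 hn4 ⊢
  have h3 : (∑ q ∈ P, g q) ^ n / (n.factorial : ℝ) ≤ 4 ^ n / n.factorial := by
    gcongr
  have h4 : (∑ q ∈ P, g q) ^ (n + 1) / ((n + 1).factorial : ℝ) ≤ 4 ^ n / n.factorial := by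
    have h5 : (∑ q ∈ P, g q) ^ (n + 1) / ((n + 1).factorial : ℝ) ≤
        4 ^ (n + 1) / (n + 1).factorial := by gcongr
    refine h5.trans ?_
    rw [Nat.factorial_succ, pow_succ]
    have hnf : (0 : ℝ) < n.factorial := by positivity
    rw [div_le_div_iff₀ (by positivity) hnf]
    push_cast
    have : 0 ≤ (4 : ℝ) ^ n * n.factorial := by positivity
    nlinarith
  linarith

/-- the main term of the minorant -/
theorem main_ge (b : ℕ) (hb : 1 + 32 * Real.exp 12 ≤ b) (J : ℕ) (V U T : ℕ → ℝ)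
    (hV : ∀ j, Real.exp (-8) ≤ V j) (hUV : ∀ j, V j ≤ U j)
    (hT : ∀ j, T j ≤ 2 * (4 ^ (2 * (b + j) + 1) / ((2 * (b + j) + 1).factorial : ℝ))) :
    (1 / 2) * ∏ j ∈ range J, V j ≤
      ∏ j ∈ range J, U j - ∑ j ∈ range J, ∏ i ∈ range J, (if i = j then T j else U i) := by
  have hb1 : 1 ≤ b := by
    have : (1 : ℝ) ≤ b := le_trans (by nlinarith [Real.exp_pos 12]) hb
    exact_mod_cast this
  have hbR : (1 : ℝ) ≤ b := by exact_mod_cast hb1
  have hU0 : ∀ j, 0 < U j := fun j => (Real.exp_pos _).trans_le ((hV j).trans (hUV j))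
  have hterm : ∀ j ∈ range J, ∏ i ∈ range J, (if i = j then T j else U i) ≤
      (Real.exp 8 * (2 * (4 ^ (2 * (b + j) + 1) / ((2 * (b + j) + 1).factorial : ℝ)))) *
        ∏ i ∈ range J, U i := by
    intro j hj
    have e1 : ∏ i ∈ range J, (if i = j then T j else U i) =
        T j * ∏ i ∈ (range J).erase j, U i := by
      rw [← mul_prod_erase (range J) _ hj, if_pos rfl]
      congr 1
      refine prod_congr rfl fun i hi => ?_
      rw [if_neg (ne_of_mem_erase hi)]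
    have e2 : ∏ i ∈ range J, U i = U j * ∏ i ∈ (range J).erase j, U i :=
      (mul_prod_erase (range J) _ hj).symm
    rw [e1, e2]
    have hP0 : 0 ≤ ∏ i ∈ (range J).erase j, U i := prod_nonneg fun i _ => (hU0 i).le
    have h1 : 1 ≤ Real.exp 8 * U j := by
      have := mul_le_mul_of_nonneg_left ((hV j).trans (hUV j)) (Real.exp_pos 8).le
      rwa [← Real.exp_add, add_neg_cancel, Real.exp_zero] at this
    have h2 := hT j
    have h0 : (0 : ℝ) ≤ 2 * (4 ^ (2 * (b + j) + 1) / ((2 * (b + j) + 1).factorial : ℝ)) := by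
      positivity
    generalize 2 * (4 ^ (2 * (b + j) + 1) / ((2 * (b + j) + 1).factorial : ℝ)) = w at h0 h2 ⊢
    calc T j * ∏ i ∈ (range J).erase j, U i
        ≤ w * ∏ i ∈ (range J).erase j, U i := mul_le_mul_of_nonneg_right h2 hP0
      _ ≤ (w * ∏ i ∈ (range J).erase j, U i) * (Real.exp 8 * U j) :=
          le_mul_of_one_le_right (mul_nonneg h0 hP0) h1
      _ = _ := by ring
  have hPU0 : 0 ≤ ∏ i ∈ range J, U i := prod_nonneg fun i _ => (hU0 i).le
  have hsum : ∑ j ∈ range J, ∏ i ∈ range J, (if i = j then T j else U i) ≤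
      (1 / 2) * ∏ i ∈ range J, U i := by
    refine (sum_le_sum hterm).trans ?_
    rw [← sum_mul]
    refine mul_le_mul_of_nonneg_right ?_ hPU0
    have h1 := tau_sum 4 (by norm_num) b hb1 J
    have e : ∑ j ∈ range J, Real.exp 8 *
        (2 * ((4 : ℝ) ^ (2 * (b + j) + 1) / (2 * (b + j) + 1).factorial)) =
        2 * Real.exp 8 *
          ∑ j ∈ range J, (4 : ℝ) ^ (2 * (b + j) + 1) / (2 * (b + j) + 1).factorial := by
      rw [mul_sum]
      refine sum_congr rfl fun j _ => ?_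
      rw [← mul_assoc, mul_comm (Real.exp 8) 2]
    rw [e]
    have h2 := mul_le_mul_of_nonneg_left h1 (by positivity : 0 ≤ 2 * Real.exp 8)
    refine h2.trans ?_
    have h3 : Real.exp 12 = Real.exp 8 * Real.exp 4 := by rw [← Real.exp_add]; norm_num
    have h4 : 2 * Real.exp 8 * (4 ^ 2 * Real.exp 4 / (2 * b)) = 16 * Real.exp 12 / b := by
      rw [h3]
      field_simp
      ring
    rw [h4, div_le_iff₀ (by linarith)]
    linarith
  have hVU : ∏ j ∈ range J, V j ≤ ∏ i ∈ range J, U i :=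
    prod_le_prod (fun j _ => (Real.exp_pos _).le.trans (hV j)) fun j _ => hUV j
  linarith

/-- the Brun-Hooley minorant -/
theorem exists_minorant : ∃ A : ℕ, 1 ≤ A ∧ ∀ (E : ℕ) (Q : Finset ℕ),
    (∀ q ∈ Q, q.Prime ∧ Nat.log 2 q ≤ E) → ∃ l : Finset ℕ → ℝ, (∀ s, |l s| ≤ (E : ℝ) + 2) ∧
      (∀ s, s ⊆ Q → l s ≠ 0 → ∏ q ∈ s, q ≤ 2 ^ (A * (E + 1))) ∧
      (∀ g : ℕ → ℝ, (∀ q ∈ Q, 0 ≤ g q) → (∀ q ∈ Q, g q ≤ 1) →
        ∑ s ∈ Q.powerset, l s * ∏ q ∈ s, g q ≤ ∏ q ∈ Q, (1 - g q)) ∧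
      (1 / 2) * ∏ q ∈ Q, (1 - 1 / (q : ℝ)) ≤
        ∑ s ∈ Q.powerset, l s * ∏ q ∈ s, (1 / (q : ℝ)) := by
  classical
  obtain ⟨b, hb⟩ := exists_nat_ge (1 + 32 * Real.exp 12)
  have hb1 : 1 ≤ b := by
    have : (1 : ℝ) ≤ b := le_trans (by nlinarith [Real.exp_pos 12]) hb
    exact_mod_cast this
  refine ⟨20 * (b + 1), by omega, ?_⟩
  intro E Q hQ
  set blk : ℕ → ℕ := fun q => Nat.log 2 (E / Nat.log 2 q) with hblk
  set B : ℕ → Finset ℕ := fun j => Q.filter (fun q => blk q = j) with hB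
  set J := E + 1 with hJ
  have hBQ : ∀ j, B j ⊆ Q := fun j => filter_subset _ _
  have hBd : ∀ i j, i ≠ j → Disjoint (B i) (B j) := by
    intro i j hij
    rw [disjoint_left]
    intro q hq hq'
    rw [hB] at hq hq'
    simp only [mem_filter] at hq hq'
    exact hij (hq.2.symm.trans hq'.2)
  have hblkJ : ∀ q ∈ Q, blk q ∈ range J := by
    intro q _
    rw [mem_range, hblk, hJ]
    have h1 : Nat.log 2 (E / Nat.log 2 q) ≤ E / Nat.log 2 q := Nat.log_le_self _ _
    have h2 : E / Nat.log 2 q ≤ E := Nat.div_le_self _ _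
    simp only
    omega
  have hbB : ∀ j, ∀ q ∈ B j, 2 ^ j * Nat.log 2 q ≤ E ∧ E < 2 ^ (j + 1) * Nat.log 2 q := by
    intro j q hq
    rw [hB] at hq
    simp only [mem_filter] at hq
    obtain ⟨hqP, hqj⟩ := hq
    have he := log2_pos_of_prime (hQ q hqP).1
    have heE := (hQ q hqP).2
    have hdiv : E / Nat.log 2 q ≠ 0 := by
      have := Nat.div_pos heE (by omega)
      omega
    constructor
    · have h1 := Nat.pow_log_le_self 2 hdiv
      rw [hblk] at hqj
      simp only at hqj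
      rw [hqj, Nat.le_div_iff_mul_le (by omega)] at h1
      exact h1
    · have h1 := Nat.lt_pow_succ_log_self one_lt_two (E / Nat.log 2 q)
      rw [hblk] at hqj
      simp only at hqj
      rw [hqj, Nat.div_lt_iff_lt_mul (by omega)] at h1
      exact h1
  have hunion : (range J).biUnion B = Q := by
    ext q
    rw [mem_biUnion]
    constructor
    · rintro ⟨j, -, hq⟩
      exact hBQ j hq
    · intro hq
      exact ⟨blk q, hblkJ q hq, by rw [hB]; exact mem_filter.2 ⟨hq, rfl⟩⟩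
  have hprodQ : ∀ f : ℕ → ℝ, ∏ q ∈ Q, f q = ∏ j ∈ range J, ∏ q ∈ B j, f q := by
    intro f
    conv_lhs => rw [← hunion]
    exact prod_biUnion fun i _ j _ hij => hBd i j hij
  -- size of the primes in a block
  have hsize : ∀ j, ∀ q ∈ B j, q ≤ 2 ^ (2 * (E / 2 ^ j)) := by
    intro j q hq
    have h1 := (hbB j q hq).1
    have h2 := log2_pos_of_prime (hQ q (hBQ j hq)).1
    have h3 : Nat.log 2 q ≤ E / 2 ^ j := by
      rw [Nat.le_div_iff_mul_le (by positivity), mul_comm]; exact h1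
    exact (lt_pow_log2 q).le.trans (Nat.pow_le_pow_right (by norm_num) (by omega))
  -- the functionals
  set r : ℕ → ℕ := fun j => 2 * (b + j) with hr
  set U : ℕ → (ℕ → ℝ) → ℝ := fun j => Atr (r j) (B j) with hU
  set T : ℕ → (ℕ → ℝ) → ℝ := fun j g => Atr (r j) (B j) g - Atr (r j + 1) (B j) g with hT
  set N : ℕ → ℕ := fun j => 2 ^ (10 * (E / 2 ^ j) * (b + j)) with hN
  have hexp : ∀ j, 2 * (E / 2 ^ j) * (r j + 1) ≤ 10 * (E / 2 ^ j) * (b + j) := by
    intro j
    have : r j + 1 ≤ 5 * (b + j) := by rw [hr]; simp only; omega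
    calc 2 * (E / 2 ^ j) * (r j + 1) ≤ 2 * (E / 2 ^ j) * (5 * (b + j)) :=
          Nat.mul_le_mul_left _ this
      _ = _ := by ring
  have hLU : ∀ j, Lev (B j) 1 (N j) (U j) := fun j =>
    (Lev.atr (B j) (r j) (2 * (E / 2 ^ j)) (r j + 1) (Nat.le_succ _) (hsize j)).mono
      (Nat.pow_le_pow_right (by norm_num) (hexp j))
  have hLT : ∀ j, Lev (B j) 1 (N j) (T j) := fun j =>
    (Lev.top (B j) (r j) (2 * (E / 2 ^ j)) (hsize j)).mono
      (Nat.pow_le_pow_right (by norm_num) (hexp j))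
  have hNprod : ∏ j ∈ range J, N j ≤ 2 ^ (20 * (b + 1) * (E + 1)) := by
    rw [hN]
    simp only
    rw [prod_pow_eq_pow_sum]
    refine Nat.pow_le_pow_right (by norm_num) ((exponent_sum_nat E b J).trans ?_)
    nlinarith
  have hLev : Lev Q (1 + J) (2 ^ (20 * (b + 1) * (E + 1))) (fun g => (∏ j ∈ range J, U j g) -
      ∑ j ∈ range J, ∏ i ∈ range J, (if i = j then T j g else U i g)) := by
    refine Lev.sub ?_ ?_
    · have := Lev.prod B hBd N U hLU J
      rw [hunion] at this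
      exact this.mono hNprod
    · refine Lev.sum _ J fun j => ?_
      have := Lev.prod B hBd N (fun i g => if i = j then T j g else U i g) (fun i => by
        by_cases hij : i = j
        · subst hij
          simp only [if_true]
          exact hLT i
        · simp only [if_neg hij]
          exact hLU i) J
      rw [hunion] at this
      exact this.mono hNprod
  obtain ⟨l, hl1, hl2, hl3⟩ := hLev
  -- the minorant property
  have hminor : ∀ g : ℕ → ℝ, (∀ q ∈ Q, 0 ≤ g q) → (∀ q ∈ Q, g q ≤ 1) →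
      ∑ s ∈ Q.powerset, l s * ∏ q ∈ s, g q ≤ ∏ q ∈ Q, (1 - g q) := by
    intro g hg0 hg1
    rw [← hl3 g, hprodQ]
    refine le_trans ?_ (tele (range J) (fun j => ∏ q ∈ B j, (1 - g q)) (fun j => U j g) ?_ ?_)
    · refine sub_le_sub_left (sum_le_sum fun j _ => ?_) _
      refine prod_le_prod (fun i _ => ?_) fun i _ => ?_
      · have h1 := Atr_even_ge (B i) g (fun q hq => hg0 q (hBQ i hq)) (fun q hq => hg1 q (hBQ i hq))
          (b + i)
        have h2 : 0 ≤ ∏ q ∈ B i, (1 - g q) :=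
          prod_nonneg fun q hq => by linarith [hg1 q (hBQ i hq)]
        have h3 := Atr_even_ge (B j) g (fun q hq => hg0 q (hBQ j hq)) (fun q hq => hg1 q (hBQ j hq))
          (b + j)
        split_ifs
        · exact sub_nonneg.2 h3
        · exact h2.trans h1
      · split_ifs with hij
        · have h4 := (Atr_bonf (B j) g (fun q hq => hg0 q (hBQ j hq))
            (fun q hq => hg1 q (hBQ j hq)) (2 * (b + j) + 1)).1
          rw [pow_succ, pow_mul, neg_one_sq, one_pow, one_mul] at h4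
          show Atr (2 * (b + j)) (B j) g - ∏ q ∈ B j, (1 - g q) ≤
            Atr (2 * (b + j)) (B j) g - Atr (2 * (b + j) + 1) (B j) g
          linarith
        · exact le_rfl
    · intro j _
      exact prod_nonneg fun q hq => by linarith [hg1 q (hBQ j hq)]
    · intro j _
      exact Atr_even_ge (B j) g (fun q hq => hg0 q (hBQ j hq)) (fun q hq => hg1 q (hBQ j hq)) (b + j)
  -- the main term
  set g₀ : ℕ → ℝ := fun q => 1 / (q : ℝ) with hg₀
  have hg00 : ∀ q ∈ Q, 0 ≤ g₀ q := fun q _ => one_div_nonneg.2 (Nat.cast_nonneg q)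
  have hg01 : ∀ q ∈ Q, g₀ q ≤ 1 := by
    intro q hq
    have h2 : (2 : ℝ) ≤ q := by exact_mod_cast (hQ q hq).1.two_le
    rw [hg₀]
    simp only
    rw [div_le_one (by linarith)]
    linarith
  have hmain : (1 / 2) * ∏ q ∈ Q, (1 - 1 / (q : ℝ)) ≤ ∑ s ∈ Q.powerset, l s * ∏ q ∈ s, g₀ q := by
    rw [← hl3 g₀]
    beta_reduce
    have hV : ∀ j, Real.exp (-8) ≤ ∏ q ∈ B j, (1 - g₀ q) := by
      intro j
      have h1 := one_sub_prod_ge (B j) 1 (fun q hq => (hQ q (hBQ j hq)).1.one_lt) (fun _ => 1)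
        (fun _ _ => le_rfl)
      have h2 := block_sum (B j) (fun q hq => (hQ q (hBQ j hq)).1) E j (hbB j)
      have h3 : ∏ q ∈ B j, (1 - g₀ q) = ∏ q ∈ B j, (1 - ((1 : ℕ) : ℝ) / q) := by
        refine prod_congr rfl fun q _ => ?_
        rw [hg₀]; simp
      rw [h3]
      refine le_trans (Real.exp_le_exp.2 ?_) h1
      push_cast
      linarith
    have hUV : ∀ j, ∏ q ∈ B j, (1 - g₀ q) ≤ U j g₀ := fun j =>
      Atr_even_ge (B j) g₀ (fun q hq => hg00 q (hBQ j hq)) (fun q hq => hg01 q (hBQ j hq)) (b + j)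
    have hU0 : ∀ j, 0 < U j g₀ := fun j => (Real.exp_pos _).trans_le ((hV j).trans (hUV j))
    have hTle : ∀ j, T j g₀ ≤ 2 * (4 ^ (2 * (b + j) + 1) / ((2 * (b + j) + 1).factorial : ℝ)) :=
      fun j => top_le (B j) g₀ (fun q hq => hg00 q (hBQ j hq)) (fun q hq => hg01 q (hBQ j hq))
        (block_sum (B j) (fun q hq => (hQ q (hBQ j hq)).1) E j (hbB j)) (b + j)
        (hb1.trans (Nat.le_add_right _ _))
    have h := main_ge b hb J (fun j => ∏ q ∈ B j, (1 - g₀ q)) (fun j => U j g₀)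
      (fun j => T j g₀) hV hUV hTle
    rw [← hprodQ (fun q => 1 - g₀ q)] at h
    exact h
  refine ⟨l, fun s => (hl1 s).trans (le_of_eq ?_), hl2, hminor, hmain⟩
  rw [hJ]
  push_cast
  ring

end Pool.Agent.Helper6.ER.SL

namespace Pool.Agent.Helper6.ER

open Finset Helper13.Om SL

/-- ER-8 -/
theorem sieve_lower : ∃ A : ℕ, 1 ≤ A ∧ ∀ (E : ℕ) (Q : Finset ℕ),
    (∀ q ∈ Q, q.Prime ∧ Nat.log 2 q ≤ E) →
    ∀ (S : Finset (ℕ × ℕ)) (hit : ℕ → ℕ × ℕ → Prop) [∀ q, DecidablePred (hit q)] (X : ℝ), 0 ≤ X →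
    (1 / 2) * X * ∏ q ∈ Q, (1 - 1 / (q : ℝ)) -
      (E + 2) * ∑ s ∈ Q.powerset.filter (fun s => ∏ q ∈ s, q ≤ 2 ^ (A * (E + 1))),
        |((S.filter (fun ω => ∀ q ∈ s, hit q ω)).card : ℝ) - X / ((∏ q ∈ s, q : ℕ) : ℝ)| ≤
      ((S.filter (fun ω => ∀ q ∈ Q, ¬ hit q ω)).card : ℝ) := by
  classical
  obtain ⟨A, hA1, hA⟩ := exists_minorant
  refine ⟨A, hA1, ?_⟩
  intro E Q hQ S hit _ X hX
  obtain ⟨l, hl1, hl2, hminor, hmain⟩ := hA E Q hQ
  -- the count
  have hcount : ((S.filter (fun ω => ∀ q ∈ Q, ¬ hit q ω)).card : ℝ) =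
      ∑ ω ∈ S, ∏ q ∈ Q, (1 - (if hit q ω then (1 : ℝ) else 0)) := by
    rw [card_eq_sum_ones, Nat.cast_sum, sum_filter]
    refine sum_congr rfl fun ω _ => ?_
    split_ifs with h
    · rw [Nat.cast_one]
      symm
      refine prod_eq_one fun q hq => ?_
      rw [if_neg (h q hq), sub_zero]
    · push Not at h
      obtain ⟨q, hq, hh⟩ := h
      symm
      exact prod_eq_zero hq (by rw [if_pos hh, sub_self])
  have hcard : ∀ s : Finset ℕ, ∑ ω ∈ S, ∏ q ∈ s, (if hit q ω then (1 : ℝ) else 0) =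
      ((S.filter (fun ω => ∀ q ∈ s, hit q ω)).card : ℝ) := by
    intro s
    rw [card_eq_sum_ones, Nat.cast_sum, sum_filter]
    refine sum_congr rfl fun ω _ => ?_
    split_ifs with h
    · rw [Nat.cast_one]
      exact prod_eq_one fun q hq => if_pos (h q hq)
    · push Not at h
      obtain ⟨q, hq, hh⟩ := h
      exact prod_eq_zero hq (if_neg hh)
  have hlow : ∑ s ∈ Q.powerset, l s * ((S.filter (fun ω => ∀ q ∈ s, hit q ω)).card : ℝ) ≤
      ((S.filter (fun ω => ∀ q ∈ Q, ¬ hit q ω)).card : ℝ) := by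
    rw [hcount]
    calc ∑ s ∈ Q.powerset, l s * ((S.filter (fun ω => ∀ q ∈ s, hit q ω)).card : ℝ)
        = ∑ ω ∈ S, ∑ s ∈ Q.powerset, l s * ∏ q ∈ s, (if hit q ω then (1 : ℝ) else 0) := by
          rw [sum_comm]
          refine sum_congr rfl fun s _ => ?_
          rw [← hcard s, mul_sum]
      _ ≤ _ := sum_le_sum fun ω _ => hminor _ (fun q _ => by split_ifs <;> norm_num)
          (fun q _ => by split_ifs <;> norm_num)
  have herr : ∑ s ∈ Q.powerset, l s * (X / ((∏ q ∈ s, q : ℕ) : ℝ)) -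
      (E + 2) * ∑ s ∈ Q.powerset.filter (fun s => ∏ q ∈ s, q ≤ 2 ^ (A * (E + 1))),
        |((S.filter (fun ω => ∀ q ∈ s, hit q ω)).card : ℝ) - X / ((∏ q ∈ s, q : ℕ) : ℝ)| ≤
      ∑ s ∈ Q.powerset, l s * ((S.filter (fun ω => ∀ q ∈ s, hit q ω)).card : ℝ) := by
    rw [sub_le_iff_le_add, ← sub_le_iff_le_add', ← sum_sub_distrib, mul_sum, sum_filter]
    refine sum_le_sum fun s hs => ?_
    rw [← mul_sub]
    split_ifs with h
    · refine (le_abs_self _).trans ?_
      rw [abs_mul, abs_sub_comm]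
      exact mul_le_mul_of_nonneg_right (hl1 s) (abs_nonneg _)
    · have : l s = 0 := by
        by_contra hne
        exact h (hl2 s (mem_powerset.1 hs) hne)
      rw [this, zero_mul]
  have hX2 : ∑ s ∈ Q.powerset, l s * (X / ((∏ q ∈ s, q : ℕ) : ℝ)) =
      X * ∑ s ∈ Q.powerset, l s * ∏ q ∈ s, (1 / (q : ℝ)) := by
    rw [mul_sum]
    refine sum_congr rfl fun s _ => ?_
    have : ∏ q ∈ s, (1 / (q : ℝ)) = 1 / ((∏ q ∈ s, q : ℕ) : ℝ) := by
      simp only [one_div]
      rw [prod_inv_distrib]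
      push_cast
      rfl
    rw [this]
    ring
  have hfin := mul_le_mul_of_nonneg_left hmain hX
  rw [hX2] at herr
  linarith

end Pool.Agent.Helper6.ER
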