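import Mathlib
import Pool.Agent.Helper6.ER.Defs
import Pool.Agent.Helper11.ER.SieveLower
import Pool.Agent.Helper16.ER.TauPhi

set_option autoImplicit false

/-! Lower bound for one box (ER-9). -/

namespace Pool.Agent.Helper6.ER.BL

open Finset

/-- Chinese remainder theorem for a finite set of primes -/
theorem crt (a : ℕ → ℤ) (s : Finset ℕ) (hs : ∀ q ∈ s, q.Prime) :
    ∃ b : ℕ, ∀ m : ℕ, (∀ q ∈ s, (q : ℤ) ∣ (m : ℤ) - a q) ↔ m ≡ b [MOD ∏ q ∈ s, q] := by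
  classical
  induction s using Finset.induction_on with
  | empty => exact ⟨0, fun m => by simp [Nat.modEq_one]⟩
  | insert p s hp ih =>
    obtain ⟨b, hb⟩ := ih fun q hq => hs q (mem_insert_of_mem hq)
    have hpp := hs p (mem_insert_self _ _)
    have hp0 : (p : ℤ) ≠ 0 := by exact_mod_cast hpp.ne_zero
    set c : ℕ := (a p % p).toNat with hc
    have hc' : ((c : ℕ) : ℤ) = a p % p := Int.toNat_of_nonneg (Int.emod_nonneg _ hp0)
    have hpc : ∀ m : ℕ, ((p : ℤ) ∣ (m : ℤ) - a p) ↔ m ≡ c [MOD p] := by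
      intro m
      rw [Nat.modEq_iff_dvd, hc']
      have e : (m : ℤ) - a p = -((a p % p - m) + p * (a p / p)) := by
        have := Int.emod_add_mul_ediv (a p) p
        linarith
      rw [e, dvd_neg]
      exact dvd_add_left (dvd_mul_right _ _)
    have hcop : Nat.Coprime p (∏ q ∈ s, q) := by
      refine Nat.Coprime.prod_right fun q hq => ?_
      refine (Nat.coprime_primes hpp (hs q (mem_insert_of_mem hq))).2 ?_
      rintro rfl
      exact hp hq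
    refine ⟨(Nat.chineseRemainder hcop c b : ℕ), fun m => ?_⟩
    rw [prod_insert hp, ← Nat.modEq_and_modEq_iff_modEq_mul hcop]
    have h1 := (Nat.chineseRemainder hcop c b).2.1
    have h2 := (Nat.chineseRemainder hcop c b).2.2
    constructor
    · intro h
      refine ⟨((hpc m).1 (h p (mem_insert_self _ _))).trans h1.symm, ?_⟩
      exact ((hb m).1 fun q hq => h q (mem_insert_of_mem hq)).trans h2.symm
    · rintro ⟨h3, h4⟩ q hq
      rcases mem_insert.1 hq with rfl | hq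
      · exact (hpc m).2 (h3.trans h1)
      · exact (hb m).2 (h4.trans h2) q hq

theorem sum_prod_le (N : Finset ℕ) (hN : ∀ q ∈ N, q.Prime) (D : ℕ) (f : ℕ → ℝ)
    (hf : ∀ d, 0 ≤ f d) :
    ∑ s ∈ N.powerset.filter (fun s => ∏ q ∈ s, q ≤ D), f (∏ q ∈ s, q) ≤
      ∑ d ∈ (Icc 1 D).filter Squarefree, f d := by
  classical
  have hinj : Set.InjOn (fun s : Finset ℕ => ∏ q ∈ s, q)
      (N.powerset.filter (fun s => ∏ q ∈ s, q ≤ D) : Set (Finset ℕ)) := by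
    intro s hs t ht hst
    rw [mem_coe, mem_filter, mem_powerset] at hs ht
    have h1 := Nat.primeFactors_prod (s := s) fun q hq => hN q (hs.1 hq)
    have h2 := Nat.primeFactors_prod (s := t) fun q hq => hN q (ht.1 hq)
    rw [← h1, ← h2]
    exact congrArg Nat.primeFactors hst
  rw [← sum_image (g := fun s : Finset ℕ => ∏ q ∈ s, q) (f := f) hinj]
  refine sum_le_sum_of_subset_of_nonneg ?_ fun d _ _ => hf d
  intro d hd
  obtain ⟨s, hs, rfl⟩ := mem_image.1 hd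
  rw [mem_filter, mem_powerset] at hs
  rw [mem_filter, mem_Icc]
  refine ⟨⟨?_, hs.2⟩, ?_⟩
  · exact Nat.one_le_iff_ne_zero.2 (prod_ne_zero_iff.2 fun q hq => (hN q (hs.1 hq)).ne_zero)
  · refine Finset.squarefree_prod_of_pairwise_isCoprime (fun p hp q hq hpq => ?_) fun p hp => ?_
    · rw [Function.onFun, ← Nat.coprime_iff_isRelPrime]
      exact (Nat.coprime_primes (hN p (hs.1 hp)) (hN q (hs.1 hq))).2 hpq
    · exact (hN p (hs.1 hp)).prime.squarefree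

theorem EC_nonneg (M R : ℕ) (P : Finset ℕ) (d : ℕ) : 0 ≤ EC M R P d :=
  sum_nonneg fun _ _ => by positivity

/-- statement of ER-6 -/
def BvLite : Prop := ∃ C : ℝ, 0 < C ∧ ∀ (D M X R : ℕ) (P : Finset ℕ), 1 ≤ D → 1 ≤ M → 1 ≤ R →
    16 * D ^ 2 ≤ X → (∀ p ∈ P, p.Prime ∧ D < p ∧ p ≤ X) →
    ∑ d ∈ (Icc 1 D).filter Squarefree, (1 / (d.totient : ℝ)) * EC M R P d ≤
      C * R.divisors.card * (1 + Real.log D) ^ 3 * (M : ℝ) ^ (3 / 4 : ℝ) *
        Real.sqrt (X * P.card)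

/-- statement of ER-7 -/
def CountError : Prop := ∀ (M R d b : ℕ) (_hR : 1 ≤ R) (_hd : 1 ≤ d)
    (_hdR : Nat.Coprime d R) (_hb : Nat.Coprime b d) (P : Finset ℕ)
    (_hP : ∀ p ∈ P, Nat.Coprime p d),
    |((((MM M R) ×ˢ P).filter (fun t => t.1 * t.2 ≡ b [MOD d])).card : ℝ) -
        (P.card : ℝ) * M * ((R.totient : ℝ) / R) / d| ≤
      (1 / (d.totient : ℝ)) * EC M R P d +
        P.card * (R.divisors.card : ℝ) * ((d.divisors.card : ℝ) / d.totient)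

end Pool.Agent.Helper6.ER.BL

namespace Pool.Agent.Helper6.ER

open Finset BL

/-- ER-9 from ER-6 and ER-7 -/
theorem box_lower_of (h6 : BvLite) (h7 : CountError) : ∃ (A : ℕ) (C : ℝ), 1 ≤ A ∧ 0 < C ∧
    ∀ (E M X R : ℕ) (P N : Finset ℕ) (a : ℕ → ℤ), 1 ≤ E → 1 ≤ M → 1 ≤ R →
    (∀ q ∈ N, q.Prime ∧ Nat.log 2 q ≤ E ∧ Nat.Coprime q R ∧ ¬ (q : ℤ) ∣ a q) →
    16 * (2 ^ (A * (E + 1))) ^ 2 ≤ X →
    (∀ p ∈ P, p.Prime ∧ 2 ^ (A * (E + 1)) < p ∧ p ≤ X) →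
    (1 / 2) * ((P.card : ℝ) * M * ((R.totient : ℝ) / R)) * ∏ q ∈ N, (1 - 1 / (q : ℝ)) -
        C * R.divisors.card * ((E : ℝ) + 2) ^ 4 * (M : ℝ) ^ (3 / 4 : ℝ) *
          Real.sqrt (X * P.card) ≤
      ((((MM M R) ×ˢ P).filter
        (fun t => ∀ q ∈ N, ¬ (q : ℤ) ∣ ((t.1 * t.2 : ℕ) : ℤ) - a q)).card : ℝ) := by
  obtain ⟨A, hA1, hA⟩ := sieve_lower
  obtain ⟨C₁, hC₁, H₁⟩ := h6
  obtain ⟨C₂, hC₂, H₂⟩ := sum_tau_phi
  refine ⟨A, C₁ * ((A : ℝ) + 1) ^ 3 + C₂ * ((A : ℝ) + 1) ^ 2, hA1, by positivity, ?_⟩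
  intro E M X R P N a hE hM hR hN hX hP
  set D : ℕ := 2 ^ (A * (E + 1)) with hD
  have hD1 : 1 ≤ D := Nat.one_le_two_pow
  set X₀ : ℝ := (P.card : ℝ) * M * ((R.totient : ℝ) / R) with hX₀
  have hX₀0 : 0 ≤ X₀ := by positivity
  have h1 := hA E N (fun q hq => ⟨(hN q hq).1, (hN q hq).2.1⟩) ((MM M R) ×ˢ P)
    (fun q t => (q : ℤ) ∣ ((t.1 * t.2 : ℕ) : ℤ) - a q) X₀ hX₀0
  -- the error terms
  have h2 : ∀ s ∈ N.powerset.filter (fun s => ∏ q ∈ s, q ≤ D),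
      |(((((MM M R) ×ˢ P).filter (fun t => ∀ q ∈ s,
        (q : ℤ) ∣ ((t.1 * t.2 : ℕ) : ℤ) - a q)).card : ℕ) : ℝ) - X₀ / ((∏ q ∈ s, q : ℕ) : ℝ)| ≤
      (fun d : ℕ => (1 / (d.totient : ℝ)) * EC M R P d +
        P.card * (R.divisors.card : ℝ) * ((d.divisors.card : ℝ) / d.totient)) (∏ q ∈ s, q) := by
    intro s hs
    rw [mem_filter, mem_powerset] at hs
    obtain ⟨hsN, hsD⟩ := hs
    obtain ⟨b, hb⟩ := crt a s fun q hq => (hN q (hsN hq)).1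
    have hd1 : 1 ≤ ∏ q ∈ s, q :=
      Nat.one_le_iff_ne_zero.2 (prod_ne_zero_iff.2 fun q hq => (hN q (hsN hq)).1.ne_zero)
    have hbc : Nat.Coprime b (∏ q ∈ s, q) := by
      refine Nat.Coprime.prod_right fun q hq => ?_
      have hqp := (hN q (hsN hq)).1
      rw [Nat.coprime_comm]
      refine (Nat.Prime.coprime_iff_not_dvd hqp).2 fun hqb => ?_
      have h3 := (hb b).2 (Nat.ModEq.refl _) q hq
      have h4 : (q : ℤ) ∣ (b : ℤ) := Int.natCast_dvd_natCast.2 hqb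
      exact (hN q (hsN hq)).2.2.2 ((dvd_sub_right h4).1 h3)
    have h5 := h7 M R (∏ q ∈ s, q) b hR hd1
      (Nat.Coprime.prod_left fun q hq => (hN q (hsN hq)).2.2.1) hbc P (by
        intro p hp
        refine Nat.Coprime.prod_right fun q hq => ?_
        refine (Nat.coprime_primes (hP p hp).1 (hN q (hsN hq)).1).2 ?_
        rintro rfl
        have h6 : p ≤ ∏ q ∈ s, q := Nat.le_of_dvd hd1 (dvd_prod_of_mem _ hq)
        exact absurd ((hP p hp).2.1) (by omega))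
    have h6 : ((MM M R) ×ˢ P).filter (fun t => ∀ q ∈ s,
        (q : ℤ) ∣ ((t.1 * t.2 : ℕ) : ℤ) - a q) =
        ((MM M R) ×ˢ P).filter (fun t => t.1 * t.2 ≡ b [MOD (∏ q ∈ s, q)]) :=
      filter_congr fun t _ => hb (t.1 * t.2)
    rw [h6]
    exact h5
  have h3 := (sum_le_sum h2).trans (sum_prod_le N (fun q hq => (hN q hq).1) D
    (fun d : ℕ => (1 / (d.totient : ℝ)) * EC M R P d +
        P.card * (R.divisors.card : ℝ) * ((d.divisors.card : ℝ) / d.totient))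
    (fun d => add_nonneg (mul_nonneg (by positivity) (EC_nonneg _ _ _ _)) (by positivity)))
  rw [sum_add_distrib, ← mul_sum] at h3
  have h4 := H₁ D M X R P hD1 hM hR hX hP
  have h5 := H₂ D hD1
  -- sizes
  have hlog : 1 + Real.log D ≤ ((A : ℝ) + 1) * (E + 2) := by
    have e1 : Real.log D = (A * (E + 1) : ℕ) * Real.log 2 := by
      rw [hD, Nat.cast_pow, Real.log_pow]; norm_num
    have e2 : Real.log 2 ≤ 1 := by linarith [Real.log_two_lt_d9]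
    have e3 : (0 : ℝ) ≤ (A * (E + 1) : ℕ) := Nat.cast_nonneg _
    rw [e1]
    push_cast at e3 ⊢
    have : (A : ℝ) * (E + 1) * Real.log 2 ≤ A * (E + 1) := mul_le_of_le_one_right e3 e2
    have hA0 : (0 : ℝ) ≤ A := Nat.cast_nonneg _
    have hE0 : (0 : ℝ) ≤ E := Nat.cast_nonneg _
    nlinarith
  have hlog0 : 0 ≤ 1 + Real.log D := by
    have := Real.log_nonneg (show (1 : ℝ) ≤ D by exact_mod_cast hD1)
    linarith
  have hPX : P.card ≤ X := by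
    have : P ⊆ Icc 1 X := fun p hp => mem_Icc.2 ⟨(hP p hp).1.one_lt.le, (hP p hp).2.2⟩
    simpa using card_le_card this
  set W : ℝ := Real.sqrt (X * P.card) with hW
  have hW0 : 0 ≤ W := Real.sqrt_nonneg _
  have hPW : (P.card : ℝ) ≤ W := by
    apply Real.le_sqrt_of_sq_le
    have : (P.card : ℝ) ≤ X := by exact_mod_cast hPX
    have h0 : (0 : ℝ) ≤ P.card := Nat.cast_nonneg _
    nlinarith
  set V : ℝ := (M : ℝ) ^ (3 / 4 : ℝ) with hV
  have hV1 : 1 ≤ V := Real.one_le_rpow (by exact_mod_cast hM) (by norm_num)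
  set τ : ℝ := (R.divisors.card : ℝ) with hτ
  have hτ0 : 0 ≤ τ := Nat.cast_nonneg _
  have hE0 : (0 : ℝ) ≤ E := Nat.cast_nonneg _
  have hA0 : (0 : ℝ) ≤ A := Nat.cast_nonneg _
  -- first error
  have h6 : C₁ * τ * (1 + Real.log D) ^ 3 * V * W ≤
      C₁ * ((A : ℝ) + 1) ^ 3 * (τ * ((E : ℝ) + 2) ^ 3 * V * W) := by
    have e : (1 + Real.log D) ^ 3 ≤ (((A : ℝ) + 1) * (E + 2)) ^ 3 := by gcongr
    calc C₁ * τ * (1 + Real.log D) ^ 3 * V * W
        ≤ C₁ * τ * (((A : ℝ) + 1) * (E + 2)) ^ 3 * V * W := by gcongr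
      _ = _ := by ring
  have h7' : (P.card : ℝ) * τ * (C₂ * (1 + Real.log D) ^ 2) ≤
      C₂ * ((A : ℝ) + 1) ^ 2 * (τ * ((E : ℝ) + 2) ^ 3 * V * W) := by
    have e : (1 + Real.log D) ^ 2 ≤ (((A : ℝ) + 1) * (E + 2)) ^ 2 := by gcongr
    calc (P.card : ℝ) * τ * (C₂ * (1 + Real.log D) ^ 2)
        ≤ W * τ * (C₂ * (((A : ℝ) + 1) * (E + 2)) ^ 2) := by gcongr
      _ = C₂ * ((A : ℝ) + 1) ^ 2 * (τ * ((E : ℝ) + 2) ^ 2 * 1 * W) := by ring
      _ ≤ C₂ * ((A : ℝ) + 1) ^ 2 * (τ * ((E : ℝ) + 2) ^ 3 * V * W) := by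
          have : ((E : ℝ) + 2) ^ 2 ≤ ((E : ℝ) + 2) ^ 3 :=
            pow_le_pow_right₀ (by linarith) (by norm_num)
          gcongr
  have h8 : ∑ d ∈ (Icc 1 D).filter Squarefree, 1 / (d.totient : ℝ) * EC M R P d +
      (P.card : ℝ) * τ * ∑ d ∈ (Icc 1 D).filter Squarefree, (d.divisors.card : ℝ) / d.totient ≤
      (C₁ * ((A : ℝ) + 1) ^ 3 + C₂ * ((A : ℝ) + 1) ^ 2) * (τ * ((E : ℝ) + 2) ^ 3 * V * W) := by
    have h9 : (P.card : ℝ) * τ *
        ∑ d ∈ (Icc 1 D).filter Squarefree, (d.divisors.card : ℝ) / d.totient ≤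
        (P.card : ℝ) * τ * (C₂ * (1 + Real.log D) ^ 2) := by gcongr
    linarith
  have h10 : ((E : ℝ) + 2) * ∑ s ∈ N.powerset.filter (fun s => ∏ q ∈ s, q ≤ D),
      |(((((MM M R) ×ˢ P).filter (fun t => ∀ q ∈ s,
        (q : ℤ) ∣ ((t.1 * t.2 : ℕ) : ℤ) - a q)).card : ℕ) : ℝ) - X₀ / ((∏ q ∈ s, q : ℕ) : ℝ)| ≤
      (C₁ * ((A : ℝ) + 1) ^ 3 + C₂ * ((A : ℝ) + 1) ^ 2) * τ * ((E : ℝ) + 2) ^ 4 * V * W := by
    calc _ ≤ ((E : ℝ) + 2) * ((C₁ * ((A : ℝ) + 1) ^ 3 + C₂ * ((A : ℝ) + 1) ^ 2) *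
          (τ * ((E : ℝ) + 2) ^ 3 * V * W)) :=
          mul_le_mul_of_nonneg_left (h3.trans h8) (by positivity)
      _ = _ := by ring
  linarith

end Pool.Agent.Helper6.ER
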